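import Pool.Agent.Run7.h462.BPD.Stm
import Pool.Agent.N792.ShpA

/-!
# The mean of the truncated singular series is at most `1 + η` (piece BPD-AV)
-/

set_option autoImplicit false

namespace Run7.h704.BPD

open Finset Filter Topology Polynomial Run7.h462.BPD
open Pool.Agent.H373R2.T7 (pz Vz mem_pz Vz_pos)
open Pool.Agent.TH204.WR (rho hh flp prod_nonneg' hh_nonneg rho_le)

theorem Vz_hh (F : ℤ[X]) (a : ℤ) (z : ℕ) :
    Vz z * hh F a z = ∏ p ∈ pz z, (1 - (rho F a p : ℝ) / p) := by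
  unfold hh
  rw [← mul_assoc, mul_inv_cancel₀ (Vz_pos z).ne', one_mul]

theorem rho_X (t : ℤ) (p : ℕ) (hp : p.Prime) : rho X t p = 1 := by
  have h1 := Pool.Agent.TH204.WR.rho_mean X 0 p hp.pos
  -- the number of the residues `a` with `p ∣ a + t`
  unfold rho
  rw [card_eq_one]
  have hp0 : (0 : ℤ) < p := by exact_mod_cast hp.pos
  refine ⟨((-t) % p).toNat, ?_⟩
  have h2 := Int.emod_nonneg (-t) hp0.ne'
  have h3 := Int.emod_lt_of_pos (-t) hp0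
  have h4 : ((((-t) % p).toNat : ℕ) : ℤ) = (-t) % p := Int.toNat_of_nonneg h2
  have h5 : (p : ℤ) ∣ (-t) % p + t := by
    have := Int.emod_add_mul_ediv (-t) p
    refine ⟨-((-t) / p), ?_⟩
    linarith
  ext r
  rw [mem_filter, mem_range, mem_singleton, eval_X]
  constructor
  · rintro ⟨h6, h7⟩
    have h8 : (p : ℤ) ∣ (r : ℤ) - (-t) % p := by
      have := dvd_sub h7 h5
      have e : (r : ℤ) + t - ((-t) % p + t) = (r : ℤ) - (-t) % p := by ring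
      rwa [e] at this
    have h9 := Int.eq_zero_of_abs_lt_dvd h8 (by rw [abs_lt]; constructor <;> omega)
    omega
  · rintro rfl
    rw [h4]
    exact ⟨by omega, h5⟩

theorem av (F : ℤ[X]) (hd : 1 ≤ F.natDegree) : S_AV F := by
  classical
  intro E η0 hη0
  obtain ⟨η, hη, hη1, hηη⟩ : ∃ η : ℝ, 0 < η ∧ η ≤ 1 ∧ η ≤ η0 :=
    ⟨min η0 1, lt_min hη0 one_pos, min_le_right _ _, min_le_left _ _⟩
  obtain ⟨C1, y1, hC1, hy1, H1⟩ := flp F.natDegree hd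
  obtain ⟨C2, y2, hC2, hy2, H2⟩ := flp 1 le_rfl
  -- the relative error
  obtain ⟨b0, hb0⟩ := exists_pow_lt_of_lt_one (show 0 < η / 20 by positivity)
    (show (1 / 2 : ℝ) < 1 by norm_num)
  obtain ⟨b, hb⟩ : ∃ b : ℕ, b = C1 + C2 + b0 := ⟨_, rfl⟩
  have hbε : 2 * (1 / 2 : ℝ) ^ b ≤ η / 10 := by
    have : (1 / 2 : ℝ) ^ b ≤ (1 / 2 : ℝ) ^ b0 :=
      pow_le_pow_of_le_one (by norm_num) (by norm_num) (by omega)
    linarith
  obtain ⟨M, hM⟩ : ∃ M : ℕ, M = C1 * b + C2 * b := ⟨_, rfl⟩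
  obtain ⟨A₁, hA₁⟩ := eventually_atTop.1
    ((Pool.Agent.TH204.WR.evt_log_pow (E * M) 1 one_pos).and
      ((Pool.Agent.TH204.WR.evt_log_ge ((y1 : ℝ) + y2 + 2))))
  refine ⟨A₁ + 1, fun A hA w hw1 hw2 => ?_⟩
  obtain ⟨hlp, hlg⟩ := hA₁ A (by omega)
  have hA0 : (0 : ℝ) < A := by exact_mod_cast (by omega : 0 < A)
  have hy1r : (0 : ℝ) ≤ y1 := Nat.cast_nonneg _
  have hy2r : (0 : ℝ) ≤ y2 := Nat.cast_nonneg _
  have hw12 : (y1 : ℝ) + y2 + 2 ≤ w := hlg.trans hw1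
  have hwy1 : y1 ≤ w := by
    have : (y1 : ℝ) ≤ w := by linarith
    exact_mod_cast this
  have hwy2 : y2 ≤ w := by
    have : (y2 : ℝ) ≤ w := by linarith
    exact_mod_cast this
  have hwM : (w : ℝ) ^ M ≤ A := by
    calc (w : ℝ) ^ M ≤ (Real.log A ^ E) ^ M := by gcongr
      _ = Real.log A ^ (E * M) := by rw [← pow_mul]
      _ ≤ A := by
          have h1 := hlp
          simpa using h1
  have hw1' : (1 : ℝ) ≤ w := by linarith
  have hwc1 : w ^ (C1 * b) ≤ A := by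
    have : (w : ℝ) ^ (C1 * b) ≤ A :=
      (pow_le_pow_right₀ hw1' (by omega)).trans hwM
    exact_mod_cast this
  have hwc2 : w ^ (C2 * b) ≤ A := by
    have : (w : ℝ) ^ (C2 * b) ≤ A :=
      (pow_le_pow_right₀ hw1' (by omega)).trans hwM
    exact_mod_cast this
  obtain ⟨ε, hε⟩ : ∃ ε : ℝ, ε = η / 10 := ⟨_, rfl⟩
  rw [← hε] at hbε
  have hε0 : 0 < ε := by rw [hε]; positivity
  have hV := Vz_pos w
  -- every `a`
  have k1 : ∀ a ∈ Icc 1 A, (1 - ε) * ((A : ℝ) * (Vz w * hh F (a : ℕ) w)) ≤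
      (#((Icc 1 A).filter (fun n : ℕ => ∀ p ∈ pz w, ¬ (p : ℤ) ∣ F.eval (n : ℤ) + (a : ℕ))) : ℝ) := by
    intro a _
    rw [Vz_hh]
    by_cases hrho : ∀ p ∈ pz w, rho F (a : ℕ) p < p
    · have h := H1 F (a : ℕ) le_rfl b (by omega) w hwy1 hrho A hwc1 0
      simp only [zero_add] at h
      have h1 := (abs_le.1 h).1
      have h2 := prod_nonneg' F (a : ℕ) w
      have h3 : 0 ≤ (A : ℝ) * ∏ p ∈ pz w, (1 - (rho F (a : ℕ) p : ℝ) / p) := mul_nonneg hA0.le h2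
      have h4 := mul_le_mul_of_nonneg_right hbε h3
      linarith
    · push Not at hrho
      obtain ⟨p, hp, hrp⟩ := hrho
      have hp' := mem_pz.1 hp
      have hp0 : (0 : ℝ) < p := by exact_mod_cast hp'.2.pos
      have h1 : ∏ p ∈ pz w, (1 - (rho F (a : ℕ) p : ℝ) / p) = 0 := by
        refine prod_eq_zero hp ?_
        have : rho F (a : ℕ) p = p := le_antisymm (rho_le F _ p) hrp
        rw [this, div_self hp0.ne', sub_self]
      rw [h1, mul_zero, mul_zero]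
      exact Nat.cast_nonneg _
  -- every `n`
  have k2 : ∀ n ∈ Icc 1 A, (#((Icc 1 A).filter (fun a : ℕ => ∀ p ∈ pz w, ¬ (p : ℤ) ∣ F.eval (n : ℤ) + (a : ℕ))) : ℝ) ≤
      (1 + ε) * (A * Vz w) := by
    intro n _
    have hX : ∀ p ∈ pz w, rho X 0 p < p := fun p hp => by
      rw [rho_X 0 p (mem_pz.1 hp).2]
      exact (mem_pz.1 hp).2.one_lt
    have h := H2 X 0 (by rw [natDegree_X]) b (by omega) w hwy2 hX A hwc2 (F.eval (n : ℤ))
    simp only [eval_X, add_zero] at h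
    have hVe : ∏ p ∈ pz w, (1 - (rho X 0 p : ℝ) / p) = Vz w := by
      unfold Vz
      refine prod_congr rfl fun p hp => ?_
      rw [rho_X 0 p (mem_pz.1 hp).2, Nat.cast_one]
    rw [hVe] at h
    have h1 := (abs_le.1 h).2
    have h3 : 0 ≤ (A : ℝ) * Vz w := mul_nonneg hA0.le hV.le
    have h4 := mul_le_mul_of_nonneg_right hbε h3
    linarith
  -- double counting
  have k3 : ∑ a ∈ Icc 1 A, (#((Icc 1 A).filter (fun n : ℕ => ∀ p ∈ pz w, ¬ (p : ℤ) ∣ F.eval (n : ℤ) + (a : ℕ))) : ℝ) =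
      ∑ n ∈ Icc 1 A, (#((Icc 1 A).filter (fun a : ℕ => ∀ p ∈ pz w, ¬ (p : ℤ) ∣ F.eval (n : ℤ) + (a : ℕ))) : ℝ) := by
    simp only [card_filter, Nat.cast_sum]
    exact sum_comm
  have k4 : (1 - ε) * ((A : ℝ) * (Vz w * ∑ a ∈ Icc 1 A, hh F (a : ℕ) w)) ≤ A * ((1 + ε) * (A * Vz w)) := by
    have h1 := sum_le_sum k1
    rw [k3] at h1
    have h2 := h1.trans (sum_le_sum k2)
    rw [sum_const, Nat.card_Icc, nsmul_eq_mul, ← mul_sum, ← mul_sum, ← mul_sum] at h2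
    simpa using h2
  obtain ⟨S, hS⟩ : ∃ S : ℝ, S = ∑ a ∈ Icc 1 A, hh F (a : ℕ) w := ⟨_, rfl⟩
  rw [← hS] at k4 ⊢
  have k5 : (1 - ε) * S ≤ (1 + ε) * A := by
    have h1 : 0 < (A : ℝ) * Vz w := mul_pos hA0 hV
    refine le_of_mul_le_mul_left ?_ h1
    calc (A : ℝ) * Vz w * ((1 - ε) * S) = (1 - ε) * ((A : ℝ) * (Vz w * S)) := by ring
      _ ≤ A * ((1 + ε) * (A * Vz w)) := k4
      _ = A * Vz w * ((1 + ε) * A) := by ring
  have r5 : (1 + ε) ≤ (1 - ε) * (1 + η) := by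
    have e2 : η * η ≤ 1 * η := by gcongr
    rw [hε]
    nlinarith
  have r7 : 0 < 1 - ε := by
    rw [hε]
    linarith
  have r8 : (1 - ε) * S ≤ (1 - ε) * ((1 + η) * A) := by
    refine k5.trans ?_
    calc (1 + ε) * (A : ℝ) ≤ ((1 - ε) * (1 + η)) * A := by gcongr
      _ = _ := by ring
  have r9 := le_of_mul_le_mul_left r8 r7
  refine r9.trans ?_
  gcongr

end Run7.h704.BPD
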