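import Pool.Agent.Run7.h462.BPD.Stm
import Pool.Agent.N792.ShpA
import Pool.Agent.N792.Rav
import Pool.Agent.Y672.GM.Equi

/-!
# The second moment of the truncated singular series (piece BPD-SQ)

Adapted from `Pool/Agent/Run7/h136/BP/SQ.lean`.
-/

set_option autoImplicit false

namespace Run7.h704.BPD

open Finset Filter Topology Polynomial Run7.h462.BPD
open Pool.Agent.H373R2.T7 (pz Vz mem_pz Vz_pos)
open Pool.Agent.TH204.WR (rho hh prod_nonneg' hh_nonneg rho_le rho_mean rho_le_deg')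
open Pool.Agent.N792 (V1)

theorem rho_per (F : ℤ[X]) (p : ℕ) : Function.Periodic (fun a : ℕ => rho F (a : ℤ) p) p := by
  intro a
  have := Pool.Agent.TH204.WR.rho_periodic F (a : ℤ) p 1
  simp only
  rw [← this]
  push_cast
  ring_nf

theorem local_bound (F : ℤ[X]) (hl : F.leadingCoeff ≠ 0) (hd : 1 ≤ F.natDegree) (p : ℕ)
    (hp : p.Prime) (hlp : F.leadingCoeff.natAbs < p) :
    ∑ a ∈ range p, ((1 - (rho F (a : ℤ) p : ℝ) / p) / (1 - 1 / (p : ℝ))) ^ 2 ≤
      p * (1 + 4 * F.natDegree / (p : ℝ) ^ 2) := by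
  have hp2 : (2 : ℝ) ≤ p := by exact_mod_cast hp.two_le
  have hp0 : (0 : ℝ) < p := by linarith
  have hS : ∑ a ∈ range p, (rho F (a : ℤ) p : ℝ) = p := by
    have := rho_mean F 0 p hp.pos
    simp only [add_zero] at this
    exact_mod_cast this
  set d : ℝ := (F.natDegree : ℝ) with hdd
  have hd1 : (1 : ℝ) ≤ d := by rw [hdd]; exact_mod_cast hd
  have h1 : ∀ a ∈ range p, (1 - (rho F (a : ℤ) p : ℝ) / p) ^ 2 ≤
      1 - (rho F (a : ℤ) p : ℝ) * (2 / p - d / p ^ 2) := by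
    intro a _
    have h2 : (rho F (a : ℤ) p : ℝ) ≤ d := by
      have : rho F (a : ℤ) p ≤ F.natDegree := rho_le_deg' F a p hp hd hlp hl
      rw [hdd]
      exact_mod_cast this
    have h3 : (0 : ℝ) ≤ rho F (a : ℤ) p := Nat.cast_nonneg _
    have h4 : (rho F (a : ℤ) p : ℝ) ^ 2 ≤ d * rho F (a : ℤ) p := by nlinarith
    have h5 : (rho F (a : ℤ) p : ℝ) ^ 2 / p ^ 2 ≤ d * rho F (a : ℤ) p / p ^ 2 := by gcongr
    calc (1 - (rho F (a : ℤ) p : ℝ) / p) ^ 2 =
          1 - 2 * (rho F (a : ℤ) p : ℝ) / p + (rho F (a : ℤ) p : ℝ) ^ 2 / p ^ 2 := by ring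
      _ ≤ 1 - 2 * (rho F (a : ℤ) p : ℝ) / p + d * rho F (a : ℤ) p / p ^ 2 := by linarith
      _ = _ := by ring
  have h2 : ∑ a ∈ range p, (1 - (rho F (a : ℤ) p : ℝ) / p) ^ 2 ≤ (p : ℝ) - 2 + d / p := by
    refine (sum_le_sum h1).trans (le_of_eq ?_)
    rw [sum_sub_distrib, ← sum_mul, sum_const, card_range, nsmul_eq_mul, mul_one, hS]
    field_simp
    ring
  have h3 : ∑ a ∈ range p, ((1 - (rho F (a : ℤ) p : ℝ) / p) / (1 - 1 / (p : ℝ))) ^ 2 =
      (∑ a ∈ range p, (1 - (rho F (a : ℤ) p : ℝ) / p) ^ 2) / (1 - 1 / (p : ℝ)) ^ 2 := by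
    rw [sum_div]
    refine sum_congr rfl fun a _ => ?_
    rw [div_pow]
  rw [h3]
  have h4 : 0 < 1 - 1 / (p : ℝ) := by
    have : 1 / (p : ℝ) ≤ 1 / 2 := one_div_le_one_div_of_le (by norm_num) hp2
    linarith
  rw [div_le_iff₀ (by positivity)]
  refine h2.trans ?_
  have h5 : (p : ℝ) * (1 + 4 * d / (p : ℝ) ^ 2) * (1 - 1 / (p : ℝ)) ^ 2 =
      (p ^ 2 + 4 * d) * (p - 1) ^ 2 / p ^ 3 := by
    field_simp
  have h6 : (p : ℝ) - 2 + d / p = (p ^ 2 - 2 * p + d) * p ^ 2 / p ^ 3 := by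
    field_simp
  rw [h5, h6]
  refine div_le_div_of_nonneg_right ?_ (by positivity)
  -- `(p² + 4d)(p-1)² - (p² - 2p + d) p² = p² + d (4 (p-1)² - p²) ≥ 0`
  have h7 : 0 ≤ (3 * (p : ℝ) - 2) * (p - 2) := mul_nonneg (by linarith) (by linarith)
  have h8 : 0 ≤ d * ((3 * (p : ℝ) - 2) * (p - 2)) := mul_nonneg (by linarith) h7
  nlinarith

theorem local_trivial (F : ℤ[X]) (p : ℕ) (hp : p.Prime) :
    ∑ a ∈ range p, ((1 - (rho F (a : ℤ) p : ℝ) / p) / (1 - 1 / (p : ℝ))) ^ 2 ≤ (p : ℝ) * 4 := by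
  have hp2 : (2 : ℝ) ≤ p := by exact_mod_cast hp.two_le
  have hp0 : (0 : ℝ) < p := by linarith
  have h4 : 1 / 2 ≤ 1 - 1 / (p : ℝ) := by
    have : 1 / (p : ℝ) ≤ 1 / 2 := one_div_le_one_div_of_le (by norm_num) hp2
    linarith
  have : ∀ a ∈ range p, ((1 - (rho F (a : ℤ) p : ℝ) / p) / (1 - 1 / (p : ℝ))) ^ 2 ≤ 4 := by
    intro a _
    have h1 : (rho F (a : ℤ) p : ℝ) ≤ p := by exact_mod_cast rho_le F a p
    have h2 : 0 ≤ 1 - (rho F (a : ℤ) p : ℝ) / p := by
      rw [sub_nonneg, div_le_one hp0]; exact h1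
    have h3 : 1 - (rho F (a : ℤ) p : ℝ) / p ≤ 1 := by
      have : 0 ≤ (rho F (a : ℤ) p : ℝ) / p := by positivity
      linarith
    have h5 : (1 - (rho F (a : ℤ) p : ℝ) / p) / (1 - 1 / (p : ℝ)) ≤ 2 := by
      rw [div_le_iff₀ (by linarith)]
      linarith
    have h6 : 0 ≤ (1 - (rho F (a : ℤ) p : ℝ) / p) / (1 - 1 / (p : ℝ)) := div_nonneg h2 (by linarith)
    nlinarith
  refine (sum_le_sum this).trans ?_
  rw [sum_const, card_range, nsmul_eq_mul]

/-- the Chinese remainder theorem for products over primes -/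
theorem crt_prod (F : ℕ → ℕ → ℝ) (hF : ∀ p, Function.Periodic (F p) p) (S : Finset ℕ)
    (hS : ∀ p ∈ S, p.Prime) :
    ∑ n ∈ range (∏ p ∈ S, p), ∏ p ∈ S, F p n = ∏ p ∈ S, ∑ n ∈ range p, F p n := by
  classical
  induction S using Finset.induction_on with
  | empty => simp
  | insert q S hq ih =>
    have hS' : ∀ p ∈ S, p.Prime := fun p hp => hS p (mem_insert_of_mem hp)
    have hqp : q.Prime := hS q (mem_insert_self _ _)
    rw [prod_insert hq, prod_insert hq, ← ih hS']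
    simp only [prod_insert hq]
    have hper : Function.Periodic (fun n => ∏ p ∈ S, F p n) (∏ p ∈ S, p) := by
      intro n
      refine prod_congr rfl fun p hp => ?_
      obtain ⟨k, hk⟩ := dvd_prod_of_mem (fun p => p) hp
      have h1 : Function.Periodic (F p) (k * p) := (hF p).nat_mul k
      rw [hk, mul_comm]
      exact h1 n
    refine Pool.Agent.Y672.GM.sum_crt q (∏ p ∈ S, p) hqp.pos
      (prod_pos fun p hp => (hS' p hp).pos) ?_ _ _ (hF q) hper
    rw [Nat.coprime_prod_right_iff]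
    intro p hp
    rw [Nat.coprime_primes hqp (hS' p hp)]
    rintro rfl
    exact hq hp

/-- the sum over a period -/
theorem period_bound (F : ℤ[X]) (hl : F.leadingCoeff ≠ 0) (hd : 1 ≤ F.natDegree) (w : ℕ) :
    ∑ a ∈ range (∏ p ∈ pz w, p), (hh F (a : ℤ) w) ^ 2 ≤
      (∏ p ∈ pz w, p : ℕ) * (4 ^ F.leadingCoeff.natAbs * Real.exp (8 * F.natDegree)) := by
  classical
  have hSp : ∀ p ∈ pz w, p.Prime := fun p hp => (mem_pz.1 hp).2
  have h1 : ∀ a : ℕ, (hh F (a : ℤ) w) ^ 2 =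
      ∏ p ∈ pz w, ((1 - (rho F (a : ℤ) p : ℝ) / p) / (1 - 1 / (p : ℝ))) ^ 2 := by
    intro a
    rw [hh, Vz, prod_pow, prod_div_distrib, div_eq_inv_mul]
  simp only [h1]
  rw [crt_prod (fun p n => ((1 - (rho F (n : ℤ) p : ℝ) / p) / (1 - 1 / (p : ℝ))) ^ 2)
    (fun p n => by
      have := rho_per F p n
      simp only at this ⊢
      rw [this]) (pz w) hSp]
  set l := F.leadingCoeff.natAbs with hld
  have h2 : ∏ p ∈ pz w, ∑ n ∈ range p, ((1 - (rho F (n : ℤ) p : ℝ) / p) / (1 - 1 / (p : ℝ))) ^ 2 ≤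
      ∏ p ∈ pz w, ((p : ℝ) * ((if p ≤ l then 4 else 1) * (1 + 4 * F.natDegree / (p : ℝ) ^ 2))) := by
    refine prod_le_prod (fun p _ => sum_nonneg fun n _ => sq_nonneg _) fun p hp => ?_
    have hp' := hSp p hp
    by_cases hpl : p ≤ l
    · rw [if_pos hpl]
      refine (local_trivial F p hp').trans ?_
      have : (1 : ℝ) ≤ 1 + 4 * F.natDegree / (p : ℝ) ^ 2 := by
        have : 0 ≤ 4 * (F.natDegree : ℝ) / (p : ℝ) ^ 2 := by positivity
        linarith
      exact mul_le_mul_of_nonneg_left (by linarith) (Nat.cast_nonneg _)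
    · rw [if_neg hpl, one_mul]
      exact local_bound F hl hd p hp' (by omega)
  refine h2.trans ?_
  rw [prod_mul_distrib, prod_mul_distrib]
  push_cast
  refine mul_le_mul_of_nonneg_left ?_ (prod_nonneg fun p _ => Nat.cast_nonneg _)
  refine mul_le_mul ?_ ?_ (prod_nonneg fun p _ => by positivity) (by positivity)
  · rw [prod_ite, prod_const, prod_const_one, mul_one]
    refine pow_le_pow_right₀ (by norm_num) ?_
    calc #(filter (fun p => p ≤ l) (pz w)) ≤ #(Icc 1 l) := by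
          refine card_le_card fun p hp => ?_
          rw [mem_filter] at hp
          rw [mem_Icc]
          exact ⟨(hSp p hp.1).one_le, hp.2⟩
      _ = l := by rw [Nat.card_Icc]; omega
  have h3 : ∏ p ∈ pz w, (1 + 4 * (F.natDegree : ℝ) / (p : ℝ) ^ 2) ≤
      Real.exp (∑ p ∈ pz w, 4 * (F.natDegree : ℝ) / (p : ℝ) ^ 2) := by
    rw [Real.exp_sum]
    refine prod_le_prod (fun p _ => by positivity) fun p _ => ?_
    have := Real.add_one_le_exp (4 * (F.natDegree : ℝ) / (p : ℝ) ^ 2)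
    linarith
  refine h3.trans (Real.exp_le_exp.2 ?_)
  have h4 : ∑ p ∈ pz w, 4 * (F.natDegree : ℝ) / (p : ℝ) ^ 2 ≤
      ∑ p ∈ Ioo 0 (w + 1), 4 * (F.natDegree : ℝ) / (p : ℝ) ^ 2 := by
    refine sum_le_sum_of_subset_of_nonneg (fun p hp => ?_) fun _ _ _ => by positivity
    have h5 := mem_pz.1 hp
    rw [mem_Ioo]
    exact ⟨h5.2.pos, by omega⟩
  refine h4.trans ?_
  have h5 := sum_Ioo_inv_sq_le (α := ℝ) 0 (w + 1)
  have h6 : ∑ p ∈ Ioo 0 (w + 1), 4 * (F.natDegree : ℝ) / (p : ℝ) ^ 2 =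
      4 * F.natDegree * ∑ p ∈ Ioo 0 (w + 1), ((p : ℝ) ^ 2)⁻¹ := by
    rw [mul_sum]
    rfl
  rw [h6]
  norm_num at h5
  have h7 : (0 : ℝ) ≤ 4 * F.natDegree := by positivity
  calc 4 * (F.natDegree : ℝ) * ∑ p ∈ Ioo 0 (w + 1), ((p : ℝ) ^ 2)⁻¹ ≤ 4 * F.natDegree * 2 := by
        gcongr
    _ = 8 * F.natDegree := by ring

theorem prod_anti (F : ℤ[X]) (c : ℤ) {w z : ℕ} (h : w ≤ z) :
    ∏ p ∈ pz z, (1 - (rho F c p : ℝ) / p) ≤ ∏ p ∈ pz w, (1 - (rho F c p : ℝ) / p) := by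
  have hsub : pz w ⊆ pz z := by
    intro p hp
    rw [mem_pz] at hp ⊢
    exact ⟨hp.1.trans h, hp.2⟩
  have hf : ∀ p : ℕ, p.Prime → 0 ≤ 1 - (rho F c p : ℝ) / p ∧ 1 - (rho F c p : ℝ) / p ≤ 1 := by
    intro p hp
    have hp0 : (0 : ℝ) < p := by exact_mod_cast hp.pos
    have h1 : (rho F c p : ℝ) ≤ p := by exact_mod_cast rho_le F c p
    constructor
    · rw [sub_nonneg, div_le_one hp0]
      exact h1
    · have : 0 ≤ (rho F c p : ℝ) / p := by positivity
      linarith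
  rw [← prod_sdiff hsub]
  have h1 : ∏ p ∈ pz z \ pz w, (1 - (rho F c p : ℝ) / p) ≤ 1 :=
    prod_le_one (fun p hp => (hf p (mem_pz.1 (mem_sdiff.1 hp).1).2).1)
      fun p hp => (hf p (mem_pz.1 (mem_sdiff.1 hp).1).2).2
  have h2 : 0 ≤ ∏ p ∈ pz w, (1 - (rho F c p : ℝ) / p) := prod_nonneg' F c w
  nlinarith

theorem sum_Icc_le (g : ℕ → ℝ) (hg : ∀ a, 0 ≤ g a) (W A : ℕ) (hW : 0 < W) (hWA : W ≤ A)
    (hper : Function.Periodic g W) :
    ∑ a ∈ Icc 1 A, g a ≤ 2 * A / W * ∑ a ∈ range W, g a := by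
  have hmul : ∀ k : ℕ, ∑ a ∈ range (k * W), g a = k * ∑ a ∈ range W, g a := by
    intro k
    induction k with
    | zero => simp
    | succ k ih =>
      rw [add_mul, one_mul, sum_range_add, ih]
      have : ∑ x ∈ range W, g (k * W + x) = ∑ x ∈ range W, g x := by
        refine sum_congr rfl fun x _ => ?_
        rw [add_comm]
        have := (hper.nat_mul k) x
        exact this
      rw [this]
      push_cast
      ring
  have h1 : Icc 1 A ⊆ range ((A / W + 1) * W) := by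
    intro a ha
    rw [mem_Icc] at ha
    rw [mem_range]
    have := Nat.lt_div_mul_add hW (a := A)
    rw [add_mul, one_mul]
    omega
  refine (sum_le_sum_of_subset_of_nonneg h1 fun a _ _ => hg a).trans ?_
  rw [hmul]
  refine mul_le_mul_of_nonneg_right ?_ (sum_nonneg fun a _ => hg a)
  have hW0 : (0 : ℝ) < W := by exact_mod_cast hW
  have h2 : ((A / W : ℕ) : ℝ) ≤ A / W := Nat.cast_div_le
  have h3 : (1 : ℝ) ≤ A / W := by
    rw [le_div_iff₀ hW0, one_mul]
    exact_mod_cast hWA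
  push_cast
  have h4 : 2 * (A : ℝ) / W = A / W + A / W := by ring
  rw [h4]
  linarith

theorem sq (F : ℤ[X]) (hl : F.leadingCoeff ≠ 0) (hd : 1 ≤ F.natDegree) : S_SQ F := by
  intro E
  obtain ⟨c, hc, hlow⟩ := Pool.Agent.N792.Shp.V1_lower
  have hlim : Tendsto (fun N : ℕ => Real.log (N : ℝ)) atTop atTop :=
    Real.tendsto_log_atTop.comp (tendsto_natCast_atTop_atTop (R := ℝ))
  obtain ⟨N₀, hN₀⟩ := eventually_atTop.1 (hlim.eventually_ge_atTop 1000)
  set K : ℝ := 1 + 2 * E / c with hK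
  have hK1 : 1 ≤ K := by
    rw [hK]
    have : 0 ≤ 2 * (E : ℝ) / c := by positivity
    linarith
  set B : ℝ := 4 ^ F.leadingCoeff.natAbs * Real.exp (8 * F.natDegree) with hB
  have hB1 : 1 ≤ B := by
    have h1 : (1 : ℝ) ≤ Real.exp (8 * F.natDegree) := Real.one_le_exp (by positivity)
    have h2 : (1 : ℝ) ≤ 4 ^ F.leadingCoeff.natAbs := one_le_pow₀ (by norm_num)
    rw [hB]
    nlinarith
  refine ⟨K ^ 2 * (2 * B), ?_, N₀ + 1, ?_⟩
  · have h2 : (1 : ℝ) ≤ K ^ 2 := one_le_pow₀ hK1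
    nlinarith
  intro A hA w hw2 hw
  have hL := hN₀ A (by omega)
  set L := Real.log (A : ℝ) with hLd
  have hA0 : (0 : ℝ) < A := by exact_mod_cast (by omega : 0 < A)
  set T := ⌊L / 8⌋₊ with hT
  have hT1 : (T : ℝ) ≤ L / 8 := Nat.floor_le (by linarith)
  have hT2 : L / 8 - 1 < T := Nat.sub_one_lt_floor _
  have hT3 : 100 ≤ T := by
    have : (100 : ℝ) < T := by linarith
    exact_mod_cast this.le
  have hVV : ∀ z, Vz z = V1 z := fun z => rfl
  -- the ratio of the Mertens products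
  obtain ⟨w0, hw0, hw0T, hw0w, hR⟩ : ∃ w0 : ℕ, 2 ≤ w0 ∧ w0 ≤ T ∧ w0 ≤ w ∧ Vz w0 ≤ K * Vz w := by
    rcases le_or_gt w T with h | h
    · refine ⟨w, hw2, h, le_rfl, ?_⟩
      have := Vz_pos w
      nlinarith
    · refine ⟨T, by omega, le_rfl, h.le, ?_⟩
      rw [hVV, hVV]
      have h1 := Pool.Agent.N792.V1_le T (by omega)
      have h2 := hlow w (by omega)
      have hlT : 0 < Real.log T := Real.log_pos (by exact_mod_cast (by omega : 1 < T))
      have hlw : 0 < Real.log w := Real.log_pos (by exact_mod_cast (by omega : 1 < w))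
      have h3 : Real.log w ≤ E * Real.log L := by
        have h4 := Real.log_le_log (by exact_mod_cast (by omega : 0 < w)) hw
        rw [Real.log_pow] at h4
        exact h4
      have h4 : Real.log L ≤ 2 * Real.log T := by
        have h5 : L ≤ (T : ℝ) ^ 2 := by nlinarith
        have h6 := Real.log_le_log (by linarith) h5
        rw [Real.log_pow] at h6
        exact_mod_cast h6
      have h5 : 1 / Real.log T ≤ K * (c / Real.log w) := by
        rw [div_le_iff₀ hlT]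
        have h6 : K * (c / Real.log w) * Real.log T = K * c * Real.log T / Real.log w := by ring
        rw [h6, le_div_iff₀ hlw, one_mul]
        have h7 : K * c = c + 2 * E := by
          rw [hK]
          field_simp
        rw [h7]
        have h8 : (E : ℝ) * Real.log L ≤ E * (2 * Real.log T) := by gcongr
        have h9 : 0 ≤ c * Real.log T := by positivity
        linarith
      have h6 : K * (c / Real.log w) ≤ K * V1 w := mul_le_mul_of_nonneg_left h2 (by linarith)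
      linarith
  -- the pointwise comparison
  have hV0 : 0 < Vz w0 := Vz_pos w0
  have hVw : 0 < Vz w := Vz_pos w
  have hpt : ∀ a : ℕ, (hh F (a : ℤ) w) ^ 2 ≤ K ^ 2 * (hh F (a : ℤ) w0) ^ 2 := by
    intro a
    rw [← mul_pow]
    refine pow_le_pow_left₀ (hh_nonneg F a w (by omega)) ?_ 2
    have h1 := prod_anti F (a : ℤ) hw0w
    have h2 : (Vz w)⁻¹ ≤ K * (Vz w0)⁻¹ := by
      rw [← div_eq_mul_inv, inv_eq_one_div, div_le_div_iff₀ hVw hV0, one_mul]
      exact hR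
    unfold hh
    calc (Vz w)⁻¹ * ∏ p ∈ pz w, (1 - (rho F a p : ℝ) / p)
        ≤ (K * (Vz w0)⁻¹) * ∏ p ∈ pz w0, (1 - (rho F a p : ℝ) / p) :=
          mul_le_mul h2 h1 (prod_nonneg' F a w) (by positivity)
      _ = _ := by ring
  set W := ∏ p ∈ pz w0, p with hW
  have hW0 : 0 < W := prod_pos fun p hp => (mem_pz.1 hp).2.pos
  have hW4 : W ≤ 4 ^ w0 := by
    have h1 := primorial_le_four_pow w0
    refine le_trans (le_of_eq ?_) h1
    rw [hW, primorial]
    refine prod_congr ?_ fun _ _ => rfl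
    ext p
    rw [mem_pz, mem_filter, mem_range]
    constructor
    · rintro ⟨h, hp⟩
      exact ⟨by omega, hp⟩
    · rintro ⟨h, hp⟩
      exact ⟨by omega, hp⟩
  have hWA : W ≤ A := by
    have h1 : ((4 ^ w0 : ℕ) : ℝ) ≤ A := by
      push_cast
      have h2 : (4 : ℝ) ^ w0 = Real.exp (w0 * Real.log 4) := by
        rw [mul_comm, Real.exp_mul, Real.exp_log (by norm_num), Real.rpow_natCast]
      have h20 : (A : ℝ) = Real.exp L := by rw [hLd, Real.exp_log hA0]
      rw [h2, h20]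
      refine Real.exp_le_exp.2 ?_
      have h3 : Real.log 4 ≤ 2 := by
        have : Real.log 4 = 2 * Real.log 2 := by
          rw [show (4 : ℝ) = 2 ^ 2 by norm_num, Real.log_pow]
          norm_num
        have := Real.log_two_lt_d9
        linarith
      have h4 : (w0 : ℝ) ≤ L / 8 := le_trans (by exact_mod_cast hw0T) hT1
      have h5 : 0 ≤ Real.log 4 := Real.log_nonneg (by norm_num)
      calc (w0 : ℝ) * Real.log 4 ≤ L / 8 * 2 := by gcongr
        _ ≤ L := by linarith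
    exact_mod_cast (le_trans (by exact_mod_cast hW4 : (W : ℝ) ≤ ((4 ^ w0 : ℕ) : ℝ)) h1)
  have hper : Function.Periodic (fun a : ℕ => (hh F (a : ℤ) w0) ^ 2) W := by
    intro a
    have : hh F ((a + W : ℕ) : ℤ) w0 = hh F (a : ℤ) w0 := by
      rw [hh, hh]
      congr 1
      refine prod_congr rfl fun p hp => ?_
      obtain ⟨k, hk⟩ := dvd_prod_of_mem (fun p => p) hp
      have h1 : rho F ((a + k * p : ℕ) : ℤ) p = rho F (a : ℤ) p := ((rho_per F p).nat_mul k) a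
      have h2 : a + W = a + k * p := by rw [hW, hk, mul_comm]
      rw [h2, h1]
    simp only
    rw [this]
  have h1 := sum_Icc_le _ (fun a => sq_nonneg _) W A hW0 hWA hper
  have h2 := period_bound F hl hd w0
  rw [← hW, ← hB] at h2
  have hWr : (0 : ℝ) < W := by exact_mod_cast hW0
  calc ∑ a ∈ Icc 1 A, (hh F (a : ℤ) w) ^ 2
      ≤ ∑ a ∈ Icc 1 A, K ^ 2 * (hh F (a : ℤ) w0) ^ 2 := sum_le_sum fun a _ => hpt a
    _ = K ^ 2 * ∑ a ∈ Icc 1 A, (hh F (a : ℤ) w0) ^ 2 := by rw [mul_sum]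
    _ ≤ K ^ 2 * (2 * A / W * ∑ a ∈ range W, (hh F (a : ℤ) w0) ^ 2) := by gcongr
    _ ≤ K ^ 2 * (2 * A / W * (W * B)) := by gcongr
    _ = K ^ 2 * (2 * B) * A := by
      field_simp

end Run7.h704.BPD
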