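import Pool.Agent.Run7.h462.BPD.Stm

/-!
# The pointwise upper bound sieve for an integer polynomial (piece BPD-UP)
-/

set_option autoImplicit false

namespace Run7.h704.BPD

open Finset Filter Topology Polynomial Run7.h462.BPD
open Pool.Agent.H373R2.T7 (pz Vz mem_pz)
open Pool.Agent.TH204.WR (rho hh flp prod_nonneg')

/-- `2 F(n) ≥ n` for large `n` -/
theorem eval_large (F : ℤ[X]) (hl : 0 < F.leadingCoeff) (hd : 1 ≤ F.natDegree) :
    ∃ n0 : ℕ, ∀ n : ℕ, n0 ≤ n → (n : ℤ) ≤ 2 * F.eval (n : ℤ) := by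
  -- the polynomial `2 F - X` is eventually nonnegative over the reals
  set G : ℝ[X] := (C 2 * F.map (Int.castRingHom ℝ)) - X with hG
  have hFd : (F.map (Int.castRingHom ℝ)).natDegree = F.natDegree :=
    natDegree_map_eq_of_injective (Int.cast_injective) F
  have hFl : (F.map (Int.castRingHom ℝ)).leadingCoeff = (F.leadingCoeff : ℝ) := by
    rw [leadingCoeff_map_of_injective (Int.cast_injective)]; rfl
  have hl1 : (1 : ℝ) ≤ (F.leadingCoeff : ℝ) := by exact_mod_cast hl
  have hlead : ∀ᶠ x : ℝ in atTop, 0 ≤ G.eval x := by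
    by_cases h1 : F.natDegree = 1
    · -- degree one: `F = l X + c`
      have hF : F = C (F.coeff 1) * X + C (F.coeff 0) := eq_X_add_C_of_natDegree_le_one (by omega)
      have hc1 : F.coeff 1 = F.leadingCoeff := by rw [leadingCoeff, h1]
      have he : ∀ x : ℝ, G.eval x = 2 * ((F.leadingCoeff : ℝ) * x + (F.coeff 0 : ℝ)) - x := by
        intro x
        rw [hG]
        conv_lhs => rw [hF]
        simp [hc1]
      filter_upwards [eventually_ge_atTop (max 0 (-2 * (F.coeff 0 : ℝ)))] with x hx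
      rw [he]
      have h2 : 0 ≤ x := (le_max_left _ _).trans hx
      have h3 : -2 * (F.coeff 0 : ℝ) ≤ x := (le_max_right _ _).trans hx
      nlinarith
    · have hd2 : 2 ≤ F.natDegree := by omega
      have hGd : G.natDegree = F.natDegree := by
        rw [hG, natDegree_sub_eq_left_of_natDegree_lt]
        · rw [natDegree_C_mul (by norm_num), hFd]
        · rw [natDegree_C_mul (by norm_num), hFd, natDegree_X]; omega
      have hGl : 0 ≤ G.leadingCoeff := by
        rw [hG, leadingCoeff_sub_of_degree_lt]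
        · rw [leadingCoeff_mul, leadingCoeff_C, hFl]; positivity
        · rw [degree_C_mul (by norm_num)]
          apply degree_lt_degree
          rw [natDegree_X, hFd]; omega
      have hGd0 : 0 < G.degree := by
        rw [← natDegree_pos_iff_degree_pos, hGd]; omega
      exact (tendsto_atTop_of_leadingCoeff_nonneg G hGd0 hGl).eventually_ge_atTop 0
  obtain ⟨x0, hx0⟩ := eventually_atTop.1 hlead
  refine ⟨⌈x0⌉₊, fun n hn => ?_⟩
  have h1 : x0 ≤ (n : ℝ) := Nat.ceil_le.1 hn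
  have h2 := hx0 n h1
  have h3 : G.eval (n : ℝ) = ((2 * F.eval (n : ℤ) - (n : ℤ) : ℤ) : ℝ) := by
    rw [hG]
    have : (F.map (Int.castRingHom ℝ)).eval (n : ℝ) = ((F.eval (n : ℤ) : ℤ) : ℝ) := by
      simp
    rw [eval_sub, eval_mul, eval_C, eval_X, this]
    push_cast
    ring
  rw [h3] at h2
  have h4 : (0 : ℤ) ≤ 2 * F.eval (n : ℤ) - (n : ℤ) := by exact_mod_cast h2
  linarith

theorem up (F : ℤ[X]) (hl : 0 < F.leadingCoeff) (hd : 1 ≤ F.natDegree) : S_UP F := by
  classical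
  obtain ⟨C1, y0, hC1, hy0, H⟩ := flp F.natDegree hd
  obtain ⟨n0, hn0⟩ := eval_large F hl hd
  obtain ⟨D, hD⟩ : ∃ D : ℕ, D = 10 * C1 ^ 2 := ⟨_, rfl⟩
  have hD10 : 10 ≤ D := by
    have := Nat.one_le_pow 2 C1 (by omega)
    omega
  have hDr : (10 : ℝ) ≤ D := by exact_mod_cast hD10
  have hD0 : (0 : ℝ) < D := by linarith
  have hlim : Tendsto (fun N : ℕ => (N : ℝ) ^ (1 / (2 * (D : ℝ)))) atTop atTop :=
    (tendsto_rpow_atTop (by positivity)).comp (tendsto_natCast_atTop_atTop (R := ℝ))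
  obtain ⟨N₁, hN₁⟩ := eventually_atTop.1 (hlim.eventually_ge_atTop ((y0 : ℝ) + 2))
  refine ⟨2 * n0 + 10, by
    have : (0 : ℝ) ≤ n0 := Nat.cast_nonneg _
    linarith, 1 / (2 * D), by positivity, ?_, N₁ + 1, ?_⟩
  · rw [div_le_div_iff₀ (by positivity) (by norm_num)]
    linarith
  intro N hN
  have hN1 : 1 ≤ N := by omega
  have hNr : (1 : ℝ) ≤ N := by exact_mod_cast hN1
  have hN0 : (0 : ℝ) < N := by linarith
  set r : ℝ := (N : ℝ) ^ (1 / (2 * (D : ℝ))) with hr
  have hr2 : (y0 : ℝ) + 2 ≤ r := hN₁ N (by omega)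
  have hy0r : (0 : ℝ) ≤ y0 := Nat.cast_nonneg _
  have hrr : r * r = (N : ℝ) ^ (1 / (D : ℝ)) := by
    rw [hr, ← Real.rpow_add hN0]
    congr 1
    field_simp
    ring
  set z : ℕ := ⌊r * r⌋₊ with hz
  have hz1 : (z : ℝ) ≤ r * r := Nat.floor_le (by positivity)
  have hz2 : r * r - 1 < z := Nat.sub_one_lt_floor _
  have hrz : r ≤ z := by nlinarith
  have hzy : y0 ≤ z := by
    have : (y0 : ℝ) ≤ z := by linarith
    exact_mod_cast this
  have hzD : (z : ℝ) ≤ (N : ℝ) ^ (1 / (D : ℝ)) := by rw [← hrr]; exact hz1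
  have hz10 : (z : ℝ) ≤ (N : ℝ) ^ (1 / 10 : ℝ) :=
    hzD.trans (Real.rpow_le_rpow_of_exponent_le hNr (one_div_le_one_div_of_le (by norm_num) hDr))
  refine ⟨z, by omega, hrz, hz10, fun a => ?_⟩
  have hzc : z ^ (C1 * C1) ≤ N := by
    have h1 : (z : ℝ) ^ (C1 * C1) ≤ N := by
      calc (z : ℝ) ^ (C1 * C1) ≤ ((N : ℝ) ^ (1 / (D : ℝ))) ^ (C1 * C1) := by gcongr
        _ = (N : ℝ) ^ (1 / (D : ℝ) * ((C1 * C1 : ℕ) : ℝ)) := by
            rw [← Real.rpow_natCast, ← Real.rpow_mul hN0.le]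
        _ ≤ (N : ℝ) ^ (1 : ℝ) := by
            refine Real.rpow_le_rpow_of_exponent_le hNr ?_
            rw [one_div, inv_mul_le_iff₀ hD0, hD]
            push_cast
            nlinarith
        _ = N := Real.rpow_one _
    exact_mod_cast h1
  -- the `n` with `F(n) + a ≤ z`
  have hz34 : (z : ℝ) ≤ (N : ℝ) ^ (3 / 4 : ℝ) :=
    hz10.trans (Real.rpow_le_rpow_of_exponent_le hNr (by norm_num))
  have h134 : (1 : ℝ) ≤ (N : ℝ) ^ (3 / 4 : ℝ) := Real.one_le_rpow hNr (by norm_num)
  have hsmall : (#((Icc 1 N).filter (fun n : ℕ => F.eval (n : ℤ) + a ≤ z)) : ℝ) ≤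
      (n0 + 2) * (N : ℝ) ^ (3 / 4 : ℝ) := by
    have h1 : #((Icc 1 N).filter (fun n : ℕ => F.eval (n : ℤ) + a ≤ z)) ≤ n0 + 2 * z := by
      calc #((Icc 1 N).filter (fun n : ℕ => F.eval (n : ℤ) + a ≤ z)) ≤ #(Icc 1 (n0 + 2 * z)) := by
            refine card_le_card fun n hn => ?_
            rw [mem_filter, mem_Icc] at hn
            rw [mem_Icc]
            refine ⟨hn.1.1, ?_⟩
            by_contra hcon
            push Not at hcon
            have := hn0 n (by omega)
            have h2 := hn.2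
            omega
        _ = n0 + 2 * z := by rw [Nat.card_Icc]; omega
    have h2 : (#((Icc 1 N).filter (fun n : ℕ => F.eval (n : ℤ) + a ≤ z)) : ℝ) ≤ n0 + 2 * z := by
      exact_mod_cast h1
    have h3 : (n0 : ℝ) ≤ n0 * (N : ℝ) ^ (3 / 4 : ℝ) :=
      le_mul_of_one_le_right (Nat.cast_nonneg _) h134
    linarith
  have hVhh : Vz z * hh F a z = ∏ p ∈ pz z, (1 - (rho F a p : ℝ) / p) := by
    unfold hh
    rw [← mul_assoc, mul_inv_cancel₀ (Pool.Agent.H373R2.T7.Vz_pos z).ne', one_mul]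
  have hprod := prod_nonneg' F a z
  rw [hVhh]
  by_cases hrho : ∀ p ∈ pz z, rho F a p < p
  · have h := H F a le_rfl C1 le_rfl z hzy hrho N hzc 0
    simp only [zero_add] at h
    have h4 := (abs_le.1 h).2
    have h5 : (1 / 2 : ℝ) ^ C1 ≤ 1 := pow_le_one₀ (by norm_num) (by norm_num)
    set V := ∏ p ∈ pz z, (1 - (rho F a p : ℝ) / p) with hV
    have hNV : 0 ≤ (N : ℝ) * V := mul_nonneg hN0.le hprod
    have h6 : 2 * (1 / 2 : ℝ) ^ C1 * (N * V) ≤ 2 * 1 * (N * V) := by gcongr
    have hcount : (P F a N : ℝ) ≤ (#((Icc 1 N).filter (fun n : ℕ => F.eval (n : ℤ) + a ≤ z)) : ℝ) +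
        (#((Icc 1 N).filter (fun s : ℕ => ∀ p ∈ pz z, ¬ (p : ℤ) ∣ F.eval (s : ℤ) + a)) : ℝ) := by
      have h7 : P F a N ≤ #((Icc 1 N).filter (fun n : ℕ => F.eval (n : ℤ) + a ≤ z)) +
          #((Icc 1 N).filter (fun s : ℕ => ∀ p ∈ pz z, ¬ (p : ℤ) ∣ F.eval (s : ℤ) + a)) := by
        unfold P
        refine le_trans (card_le_card ?_) (card_union_le _ _)
        intro n hn
        rw [mem_filter] at hn
        rw [mem_union, mem_filter, mem_filter]
        by_cases hnz : F.eval (n : ℤ) + a ≤ z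
        · exact Or.inl ⟨hn.1, hnz⟩
        · right
          refine ⟨hn.1, fun p hp hdv => hnz ?_⟩
          have hp' := mem_pz.1 hp
          have hpos : 0 ≤ F.eval (n : ℤ) + a := by
            push Not at hnz
            have : (0 : ℤ) ≤ z := Int.natCast_nonneg _
            linarith
          have e1 : ((F.eval (n : ℤ) + a).toNat : ℤ) = F.eval (n : ℤ) + a := Int.toNat_of_nonneg hpos
          rw [← e1] at hdv ⊢
          have h8 : p ∣ (F.eval (n : ℤ) + a).toNat := by exact_mod_cast hdv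
          have h9 := (Nat.prime_dvd_prime_iff_eq hp'.2 hn.2).1 h8
          rw [← h9]
          exact_mod_cast hp'.1
      exact_mod_cast h7
    have hn00 : (0 : ℝ) ≤ n0 := Nat.cast_nonneg _
    have h10 : 0 ≤ (2 * (n0 : ℝ)) * ((N : ℝ) * V) := by positivity
    have e2 : (2 * (n0 : ℝ) + 10) * N * V = (2 * (n0 : ℝ)) * (N * V) + 10 * (N * V) := by ring
    rw [e2]
    have h11 : ((n0 : ℝ) + 2) * (N : ℝ) ^ (3 / 4 : ℝ) ≤ (2 * n0 + 10) * (N : ℝ) ^ (3 / 4 : ℝ) :=
      mul_le_mul_of_nonneg_right (by linarith) (by positivity)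
    linarith
  · push Not at hrho
    obtain ⟨p, hp, hrp⟩ := hrho
    have hp' := mem_pz.1 hp
    have hall : ∀ n : ℤ, (p : ℤ) ∣ F.eval n + a := by
      intro n
      have h1 : ((range p).filter (fun b : ℕ => (p : ℤ) ∣ F.eval (b : ℤ) + a)) = range p := by
        refine eq_of_subset_of_card_le (filter_subset _ _) ?_
        rw [card_range]
        exact hrp
      have hp0 : (0 : ℤ) < p := by exact_mod_cast hp'.2.pos
      have h2 : (n % p).toNat ∈ range p := by
        rw [mem_range]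
        have := Int.emod_lt_of_pos n hp0
        have := Int.emod_nonneg n hp0.ne'
        omega
      rw [← h1, mem_filter] at h2
      have h3 := h2.2
      rw [Int.toNat_of_nonneg (Int.emod_nonneg n hp0.ne')] at h3
      have h4 : (p : ℤ) ∣ F.eval n - F.eval (n % p) := by
        refine dvd_trans ?_ (sub_dvd_eval_sub n (n % p) F)
        exact Int.dvd_self_sub_emod
      have h5 := dvd_add h4 h3
      have e : F.eval n - F.eval (n % p) + (F.eval (n % p) + a) = F.eval n + a := by ring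
      rwa [e] at h5
    have hcount : (P F a N : ℝ) ≤ (#((Icc 1 N).filter (fun n : ℕ => F.eval (n : ℤ) + a ≤ z)) : ℝ) := by
      have : P F a N ≤ #((Icc 1 N).filter (fun n : ℕ => F.eval (n : ℤ) + a ≤ z)) := by
        unfold P
        refine card_le_card fun n hn => ?_
        rw [mem_filter] at hn ⊢
        refine ⟨hn.1, ?_⟩
        have h6 := hall n
        have hpos : 0 < F.eval (n : ℤ) + a := by
          have := hn.2.pos
          omega
        have e1 : ((F.eval (n : ℤ) + a).toNat : ℤ) = F.eval (n : ℤ) + a := Int.toNat_of_nonneg hpos.le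
        rw [← e1] at h6 ⊢
        have h8 : p ∣ (F.eval (n : ℤ) + a).toNat := by exact_mod_cast h6
        have h9 := (Nat.prime_dvd_prime_iff_eq hp'.2 hn.2).1 h8
        rw [← h9]
        exact_mod_cast hp'.1
      exact_mod_cast this
    have hn00 : (0 : ℝ) ≤ n0 := Nat.cast_nonneg _
    have h11 : ((n0 : ℝ) + 2) * (N : ℝ) ^ (3 / 4 : ℝ) ≤ (2 * n0 + 10) * (N : ℝ) ^ (3 / 4 : ℝ) :=
      mul_le_mul_of_nonneg_right (by linarith) (by positivity)
    have h12 : 0 ≤ (2 * (n0 : ℝ) + 10) * N * ∏ p ∈ pz z, (1 - (rho F a p : ℝ) / p) := by positivity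
    linarith

end Run7.h704.BPD
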